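import Mathlib
import Pool.Agent.Y1.KN.Stm6
import Pool.Agent.Y46.KN1.Desc

/-!
# Spaces that are isomorphic on the subfield are isomorphic (job KN-DESC2)
-/

set_option linter.unusedSectionVars false
set_option linter.unusedVariables false

namespace Pool.Agent.Y167.KN

open Finset Module NumberField Pool.Agent.TH170.MF Pool.Agent.TH170.QC Pool.Agent.TH170.QE
  Pool.Agent.TH170.FW Pool.Agent.H204R3.CM Pool.Agent.Y1.KN Pool.Agent.Y46.KN1

section

variable {E : Type*} [Field E] [NumberField E] (F : IntermediateField ℚ E)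

/-- One inclusion for the class functions. -/
theorem killers_le_of_desc {S S' : Submodule ℚ ((E →+* ℂ) → ℚ)} (hS : S ∈ minimalSpaces E)
    (hle : S ≤ resSpace F) (hS' : S' ∈ minimalSpaces E) (hle' : S' ≤ resSpace F)
    (hK : killers (Gal F) (desc F S : Set ((F →+* ℂ) → ℚ)) =
      killers (Gal F) (desc F S' : Set ((F →+* ℂ) → ℚ))) :
    killers (Gal E) (S : Set ((E →+* ℂ) → ℚ)) ≤
      killers (Gal E) (S' : Set ((E →+* ℂ) → ℚ)) := by
  classical
  obtain ⟨h0, hi, ho, hmin⟩ := (minInv_iff (desc F S)).2 (desc_minimal F hS hle)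
  obtain ⟨h0', hi', ho', hmin'⟩ := (minInv_iff (desc F S')).2 (desc_minimal F hS' hle')
  obtain ⟨A, hA, hAS, s₀, hs₀, hne⟩ := exists_equivariant hi h0 hi' h0' hK
  have hI : Invariant (Gal F) ((desc F S).map A) := by
    rintro γ _ ⟨t, ht, rfl⟩
    refine ⟨fun y => t (γ • y), hi γ t ht, ?_⟩
    funext x
    rw [hA]
  have hmap : (desc F S).map A = desc F S' := by
    have hle2 : (desc F S).map A ≤ desc F S' := by
      rintro _ ⟨t, ht, rfl⟩
      exact hAS t
    rcases hmin' _ hI hle2 with h | h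
    · exfalso
      apply hne
      have h1 : A s₀ ∈ (desc F S).map A := ⟨s₀, hs₀, rfl⟩
      rw [h] at h1
      exact h1
    · exact h
  have hAσ : ∀ (σ : ℂ ≃+* ℂ) (u : (F →+* ℂ) → ℚ),
      A (fun φ => u ((σ : ℂ →+* ℂ).comp φ)) = fun φ => A u ((σ : ℂ →+* ℂ).comp φ) := by
    intro σ u
    obtain ⟨γ, hγ⟩ := exists_gal_smul F σ
    funext φ
    have h1 := hA γ u φ
    simp only [hγ] at h1
    exact h1
  choose τ hτ using gal_smul E
  intro a ha s' hs' φ
  obtain ⟨v', rfl⟩ := mem_range_pull F (hle' hs')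
  have hv'S : v' ∈ (desc F S).map A := by
    rw [hmap]
    exact hs'
  obtain ⟨v, hv, rfl⟩ := hv'S
  have hv0 : ∀ φ : E →+* ℂ, ∑ γ : Gal E, a (ConjClasses.mk γ) * pull F v (γ • φ) = 0 := fun φ =>
    ha _ hv φ
  have hw : (∑ γ : Gal E, a (ConjClasses.mk γ) •
      (fun ψ : F →+* ℂ => v (((τ γ : ℂ ≃+* ℂ) : ℂ →+* ℂ).comp ψ))) = 0 := by
    funext ψ
    obtain ⟨φ', rfl⟩ := exists_ext F ψ
    rw [Finset.sum_apply, Pi.zero_apply, ← hv0 φ']
    refine Finset.sum_congr rfl fun γ _ => ?_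
    rw [Pi.smul_apply, smul_eq_mul, hτ γ]
    rfl
  have hAw := congrArg A hw
  rw [map_sum, map_zero] at hAw
  have h2 := congrFun hAw (φ.comp (algebraMap F E))
  rw [Finset.sum_apply, Pi.zero_apply] at h2
  rw [← h2]
  refine Finset.sum_congr rfl fun γ _ => ?_
  rw [map_smul, hAσ, Pi.smul_apply, smul_eq_mul, hτ γ]
  rfl

end

theorem desc2 : P_desc2 := by
  intro E _ _ _ F _ S S' hS hS' hle hle' hK
  exact le_antisymm (killers_le_of_desc F hS hle hS' hle' hK)
    (killers_le_of_desc F hS' hle' hS hle hK.symm)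

end Pool.Agent.Y167.KN
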